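import Pool.Agent.H142.NT.Fin

/-!
# Exponentially many non-isomorphic spanning trees

`STree G` is the set of the spanning trees of `G` (graphs `T ≤ G` on the same vertex set which are
trees), `isoRel G` is isomorphism of abstract graphs, and `numUnlabeled G` is the number of the
isomorphism classes (see `Pool.Agent.H142.NT.Defs`).
-/

set_option autoImplicit false

open Pool.Agent.H142.NT

namespace Pool.Agent.Results.MP_b146e7_co.SpanningTrees

theorem card_nbr {V : Type} [Fintype V] (G : SimpleGraph V) (v : V) :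
    (nbr G v).card = (G.neighborSet v).ncard := by
  classical
  rw [← Set.ncard_coe_finset]
  congr 1
  ext w
  simp [nbr]

/-- For every `d ≥ 3` there is `c > 0` such that every connected `d`-regular graph on `n ≥ 3`
vertices has at least `e ^ (c n)` isomorphism classes of spanning trees. More generally, for every
`D` there is `c > 0` such that this holds for all connected graphs whose degrees lie between `3`
and `D`. -/
theorem result :
    (∀ d : ℕ, 3 ≤ d → ∃ c : ℝ, 0 < c ∧ ∀ (V : Type) [Fintype V] (G : SimpleGraph V),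
      G.Connected → (∀ v, (G.neighborSet v).ncard = d) → 3 ≤ Fintype.card V →
      Real.exp (c * Fintype.card V) ≤ numUnlabeled G) ∧
    (∀ D : ℕ, ∃ c : ℝ, 0 < c ∧ ∀ (V : Type) [Fintype V] (G : SimpleGraph V),
      G.Connected → (∀ v, 3 ≤ (G.neighborSet v).ncard ∧ (G.neighborSet v).ncard ≤ D) →
      Real.exp (c * Fintype.card V) ≤ numUnlabeled G) := by
  have key : ∀ D : ℕ, ∃ c : ℝ, 0 < c ∧ ∀ (V : Type) [Fintype V] (G : SimpleGraph V),
      G.Connected → (∀ v, 3 ≤ (G.neighborSet v).ncard ∧ (G.neighborSet v).ncard ≤ D) →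
      Real.exp (c * Fintype.card V) ≤ numUnlabeled G := by
    intro D
    obtain ⟨c, hc, h⟩ := main_bound' D
    refine ⟨c, hc, ?_⟩
    intro V _ G hG hdeg
    exact h V G hG (fun v => by rw [card_nbr]; exact (hdeg v).1)
      (fun v => by rw [card_nbr]; exact (hdeg v).2)
  refine ⟨?_, key⟩
  intro d hd
  obtain ⟨c, hc, h⟩ := key d
  refine ⟨c, hc, ?_⟩
  intro V _ G hG hdeg _
  exact h V G hG (fun v => by rw [hdeg v]; exact ⟨hd, le_rfl⟩)

end Pool.Agent.Results.MP_b146e7_co.SpanningTrees
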